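import Pool.Agent.helper81.BS.SpecG

set_option autoImplicit false
set_option linter.dupNamespace false
set_option linter.unusedVariables false
set_option linter.unusedSectionVars false

namespace Pool.Agent.helper81.BS

open Pool.Agent.helper81.PL

theorem T4_mem_tch (n : ℕ) (B A : Finset ℕ) (e : ℕ) :
    e ∈ tch n B A ↔ e ∈ B ∧ (e / n ∈ A ∨ e % n ∈ A) := by
  unfold tch
  simp [fmem]

theorem T4_mono (n : ℕ) (B A A' : Finset ℕ) (h : A ⊆ A') : tt n B A ≤ tt n B A' := by
  unfold tt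
  refine Finset.card_le_card fun e he => ?_
  rw [T4_mem_tch] at he ⊢
  exact ⟨he.1, he.2.imp (fun h' => h h') (fun h' => h h')⟩

theorem T4_add (n : ℕ) (B A K : Finset ℕ) : tt n B A ≤ tt n B K + tt n B (A \ K) := by
  unfold tt
  refine le_trans (Finset.card_le_card fun e he => ?_) (Finset.card_union_le _ _)
  rw [Finset.mem_union, T4_mem_tch, T4_mem_tch, Finset.mem_sdiff, Finset.mem_sdiff]
  rw [T4_mem_tch] at he
  tauto

theorem T4_viol (n : ℕ) (E W : Finset ℕ) (k : ℕ) (PP : List (Finset ℕ)) (A : Finset ℕ) :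
    violb n E W k PP A = true ↔ A ⊆ W ∧ A ≠ W ∧ dd n E A ≤ 2 * k ∧
      dd n E A < tt n (beta n E W PP) A := by
  unfold violb
  simp only [fsub, eqb, leb, Bool.and_eq_true, decide_eq_true_eq, Bool.not_eq_true',
    decide_eq_false_iff_not]
  constructor
  · rintro ⟨⟨⟨h1, h2⟩, h3⟩, h4⟩
    exact ⟨h1, h2, h3, h4⟩
  · rintro ⟨h1, h2, h3, h4⟩
    exact ⟨⟨⟨h1, h2⟩, h3⟩, h4⟩

theorem T4_conn (h3a : M3a_stmt) (h3b : M3b_stmt) (n : ℕ) (E B : Finset ℕ) (hE : WF n E) :
    ∀ (m : ℕ) (A : Finset ℕ), A.card ≤ m → A ⊆ Finset.range n → dd n E A < tt n B A →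
      ∃ v K, K ⊆ A ∧ Conn n E v K ∧ dd n E K < tt n B K ∧ dd n E K ≤ dd n E A := by
  intro m
  induction m with
  | zero =>
    intro A hA hn h
    have : A = ∅ := Finset.card_eq_zero.1 (by omega)
    subst this
    exfalso
    have h0 : tt n B ∅ = 0 := by
      unfold tt
      rw [Finset.card_eq_zero, Finset.eq_empty_iff_forall_notMem]
      intro e he
      rw [T4_mem_tch] at he
      simp at he
    omega
  | succ m ih =>
    intro A hA hn h
    have hne : A.Nonempty := by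
      rw [Finset.nonempty_iff_ne_empty]
      intro h0
      subst h0
      have h0 : tt n B ∅ = 0 := by
        unfold tt
        rw [Finset.card_eq_zero, Finset.eq_empty_iff_forall_notMem]
        intro e he
        rw [T4_mem_tch] at he
        simp at he
      omega
    obtain ⟨v, hv⟩ := hne
    obtain ⟨K, hK⟩ := h3a n E A v hv
    obtain ⟨b1, b2, b3⟩ := h3b n E A v K hE hn hK
    by_cases hk : dd n E K < tt n B K
    · exact ⟨v, K, hK.1, hK.2.1, hk, by omega⟩
    · have h1 := T4_add n B A K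
      have h2 : dd n E (A \ K) < tt n B (A \ K) := by omega
      have h3 : (A \ K).card < A.card :=
        Finset.card_lt_card (Finset.sdiff_ssubset hK.1 ⟨v, hK.2.1.1⟩)
      obtain ⟨w, L, c1, c2, c3, c4⟩ := ih (A \ K) (by omega)
        (Finset.sdiff_subset.trans hn) h2
      exact ⟨w, L, c1.trans Finset.sdiff_subset, c2, c3, by omega⟩

theorem T4 (h3a : M3a_stmt) (h3b : M3b_stmt) (hA8 : A8_stmt) : T4_stmt := by
  intro N n E W k PP A hN hE hW hv
  rw [T4_viol] at hv
  obtain ⟨v1, v2, v3, v4⟩ := hv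
  obtain ⟨v, K, c1, c2, c3, c4⟩ := T4_conn h3a h3b n E (beta n E W PP) hE A.card A le_rfl
    (v1.trans hW) v4
  obtain ⟨-, -, d1, d2⟩ := hA8 N n E W (2 * k) hN hE hW
  have hKW : K ≠ W := by
    intro h
    refine v2 (Finset.Subset.antisymm v1 ?_)
    rw [← h]
    exact c1
  obtain ⟨R, e1, e2, e3⟩ := d2 v K (c1.trans v1) hKW c2 (by omega)
  obtain ⟨f1, f2, f3, f4⟩ := d1 R e1
  refine ⟨R, e1, ?_⟩
  rw [T4_viol]
  have := T4_mono n (beta n E W PP) K R e2
  exact ⟨f1, f2, f4, by omega⟩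

end Pool.Agent.helper81.BS
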