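import Pool.Agent.helper50.BS.SpecT

set_option autoImplicit false
set_option linter.unusedVariables false
set_option linter.dupNamespace false

open Finset

open scoped Classical

noncomputable section

namespace Pool.Agent.BS

theorem TB3_X0l (g : IG) (W : Finset ℕ) (v : ℕ) : Sum.inl v ∈ g.X0 W ↔ v ∈ W := by
  unfold IG.X0
  simp

theorem TB3_X0r (g : IG) (W : Finset ℕ) (e : ℕ) : Sum.inr e ∈ g.X0 W ↔ e ∈ g.EW W := by
  unfold IG.X0
  simp

theorem TB3_EW (g : IG) (W : Finset ℕ) (e : ℕ) :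
    e ∈ g.EW W ↔ e ∈ g.E ∧ (g.s e ∈ W ∨ g.t e ∈ W) := by
  unfold IG.EW
  simp

theorem TB3_dl (g : IG) (W : Finset ℕ) : g.dl W ⊆ g.EW W := by
  intro e he
  unfold IG.dl at he
  rw [mem_filter] at he
  rw [TB3_EW]
  refine ⟨he.1, ?_⟩
  by_contra hc
  push Not at hc
  exact he.2 ⟨fun h => absurd h hc.1, fun h => absurd h hc.2⟩

theorem TB3 (h1 : TB1_stmt) : TB3_stmt := by
  intro g R _ PP W S f hP hS
  obtain ⟨a1, a2, a3, a4, a5⟩ := h1 g PP W hP
  obtain ⟨p1, p2, p3⟩ := hP
  have hcov : ∀ v, v ∈ W ↔ ∃ C ∈ PP, v ∈ C := by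
    intro v
    rw [← p3]
    simp
  rw [Finset.prod_sum]
  refine Finset.sum_bij' (fun A _ => fun C _ => A ∩ g.X0 C)
    (fun p _ => PP.attach.biUnion fun x => p x.1 x.2) ?_ ?_ ?_ ?_ ?_
  · intro A hA
    rw [mem_filter, mem_powerset] at hA
    rw [Finset.mem_pi]
    intro C hC
    rw [mem_filter, mem_powerset]
    refine ⟨inter_subset_right, ?_⟩
    ext e
    simp only [mem_inter, mem_toRight]
    constructor
    · rintro ⟨⟨h, -⟩, he⟩
      refine ⟨?_, he⟩
      rw [← hA.2]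
      have hb : e ∈ g.beta PP := by
        unfold IG.beta
        exact mem_biUnion.2 ⟨C, hC, he⟩
      exact mem_inter.2 ⟨mem_toRight.2 h, hb⟩
    · rintro ⟨h, he⟩
      rw [← hA.2] at h
      exact ⟨⟨mem_toRight.1 (mem_inter.1 h).1, (TB3_X0r g C e).2 (TB3_dl g C he)⟩, he⟩
  · intro p hp
    rw [Finset.mem_pi] at hp
    rw [mem_filter, mem_powerset]
    constructor
    · intro x hx
      obtain ⟨C, -, hC⟩ := mem_biUnion.1 hx
      have h2 := hp C.1 C.2
      rw [mem_filter, mem_powerset] at h2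
      have h3 := h2.1 hC
      rcases x with v | e
      · rw [TB3_X0l] at h3 ⊢
        exact a3 C.1 C.2 h3
      · rw [TB3_X0r, TB3_EW] at h3 ⊢
        exact ⟨h3.1, h3.2.imp (fun h => a3 C.1 C.2 h) (fun h => a3 C.1 C.2 h)⟩
    · ext e
      rw [mem_inter, mem_toRight, mem_biUnion]
      constructor
      · rintro ⟨⟨C, -, hC⟩, hb⟩
        have h2 := hp C.1 C.2
        rw [mem_filter, mem_powerset] at h2
        have h3 := h2.1 hC
        rw [TB3_X0r] at h3
        have h4 : e ∈ g.dl C.1 := by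
          rw [← a5 C.1 C.2]
          exact mem_inter.2 ⟨h3, hb⟩
        have h5 : e ∈ S ∩ g.dl C.1 := by
          rw [← h2.2]
          exact mem_inter.2 ⟨mem_toRight.2 hC, h4⟩
        exact (mem_inter.1 h5).1
      · intro he
        have hb := hS he
        refine ⟨?_, hb⟩
        unfold IG.beta at hb
        obtain ⟨C, hC, hd⟩ := mem_biUnion.1 hb
        have h2 := hp C hC
        rw [mem_filter, mem_powerset] at h2
        have h5 : e ∈ S ∩ g.dl C := mem_inter.2 ⟨he, hd⟩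
        rw [← h2.2] at h5
        exact ⟨⟨C, hC⟩, mem_attach _ _, mem_toRight.1 (mem_inter.1 h5).1⟩
  · intro A hA
    rw [mem_filter, mem_powerset] at hA
    ext x
    rw [mem_biUnion]
    constructor
    · rintro ⟨C, -, hC⟩
      exact (mem_inter.1 hC).1
    · intro hx
      have h3 := hA.1 hx
      rcases x with v | e
      · rw [TB3_X0l, hcov] at h3
        obtain ⟨C, hC, hv⟩ := h3
        exact ⟨⟨C, hC⟩, mem_attach _ _, mem_inter.2 ⟨hx, (TB3_X0l g C v).2 hv⟩⟩
      · rw [TB3_X0r, TB3_EW] at h3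
        rcases h3 with ⟨he, h3 | h3⟩
        · obtain ⟨C, hC, hv⟩ := (hcov _).1 h3
          exact ⟨⟨C, hC⟩, mem_attach _ _, mem_inter.2 ⟨hx, (TB3_X0r g C e).2
            ((TB3_EW g C e).2 ⟨he, Or.inl hv⟩)⟩⟩
        · obtain ⟨C, hC, hv⟩ := (hcov _).1 h3
          exact ⟨⟨C, hC⟩, mem_attach _ _, mem_inter.2 ⟨hx, (TB3_X0r g C e).2
            ((TB3_EW g C e).2 ⟨he, Or.inr hv⟩)⟩⟩
  · intro p hp
    rw [Finset.mem_pi] at hp
    funext C hC
    have h2 := hp C hC
    rw [mem_filter, mem_powerset] at h2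
    ext x
    rw [mem_inter, mem_biUnion]
    constructor
    · rintro ⟨⟨D, -, hD⟩, hx⟩
      by_cases hDC : D.1 = C
      · obtain ⟨D, hD'⟩ := D
        simp only at hDC
        subst hDC
        exact hD
      · have h4 := hp D.1 D.2
        rw [mem_filter, mem_powerset] at h4
        have h5 := h4.1 hD
        rcases x with v | e
        · rw [TB3_X0l] at h5 hx
          exact absurd hx (Finset.disjoint_left.1 (p2 D.1 D.2 C hC hDC) h5)
        · rw [TB3_X0r] at h5 hx
          have h6 := mem_inter.1 (a4 D.1 D.2 C hC hDC (mem_inter.2 ⟨h5, hx⟩))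
          have h7 : e ∈ S ∩ g.dl D.1 := by
            rw [← h4.2]
            exact mem_inter.2 ⟨mem_toRight.2 hD, h6.1⟩
          have h8 : e ∈ S ∩ g.dl C := mem_inter.2 ⟨(mem_inter.1 h7).1, h6.2⟩
          rw [← h2.2] at h8
          exact mem_toRight.1 (mem_inter.1 h8).1
    · intro hx
      exact ⟨⟨⟨C, hC⟩, mem_attach _ _, hx⟩, h2.1 hx⟩
  · intro A hA
    exact (Finset.prod_attach PP fun C => f C (A ∩ g.X0 C)).symm

end Pool.Agent.BS

end
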