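import Pool.Agent.helper50.BS.SpecT

set_option autoImplicit false
set_option linter.unusedVariables false
set_option linter.dupNamespace false

open Finset

open scoped Classical

noncomputable section

namespace Pool.Agent.BS

/-- `e` has a cut incidence -/
def TC1_cut (g : IG) (W : Finset ℕ) (A : Finset (ℕ ⊕ ℕ)) (e : ℕ) : Prop :=
  (g.s e ∈ W ∧ ¬ (Sum.inl (g.s e) ∈ A ↔ Sum.inr e ∈ A)) ∨
    (g.t e ∈ W ∧ ¬ (Sum.inl (g.t e) ∈ A ↔ Sum.inr e ∈ A))

theorem TC1_card (g : IG) (W : Finset ℕ) (A : Finset (ℕ ⊕ ℕ)) (T : Finset ℕ) (hT : T ⊆ g.E)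
    (h : ∀ e ∈ T, TC1_cut g W A e) : T.card ≤ g.cW W A := by
  unfold IG.cW
  rw [card_eq_sum_ones]
  refine le_trans (Finset.sum_le_sum fun e he => ?_)
    (Finset.sum_le_sum_of_subset hT)
  rcases h e he with h | h
  · rw [if_pos h]
    exact Nat.le_add_right _ _
  · rw [if_pos h]
    exact Nat.le_add_left _ _

theorem TC1_dl (g : IG) (W : Finset ℕ) (A : Finset (ℕ ⊕ ℕ)) (k : ℕ) (D : Finset ℕ) (hD : D ⊆ W)
    (h1 : ((g.dl W).filter fun e => g.s e ∈ D ∨ g.t e ∈ D).card ≤ k)
    (h2 : ∀ e ∈ g.E, ((g.s e ∈ D ∧ g.t e ∈ W ∧ g.t e ∉ D) ∨ (g.t e ∈ D ∧ g.s e ∈ W ∧ g.s e ∉ D)) →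
      TC1_cut g W A e) (hk : g.cW W A ≤ k) : (g.dl D).card ≤ 2 * k := by
  have hsub : g.dl D ⊆ ((g.dl W).filter fun e => g.s e ∈ D ∨ g.t e ∈ D) ∪
      (g.E.filter fun e => (g.s e ∈ D ∧ g.t e ∈ W ∧ g.t e ∉ D) ∨
        (g.t e ∈ D ∧ g.s e ∈ W ∧ g.s e ∉ D)) := by
    intro e he
    unfold IG.dl at he ⊢
    rw [mem_filter] at he
    rw [mem_union, mem_filter, mem_filter, mem_filter]
    have a1 := he.1
    have a2 := he.2
    have b1 := @hD (g.s e)
    have b2 := @hD (g.t e)
    tauto
  have h3 := TC1_card g W A (g.E.filter fun e => (g.s e ∈ D ∧ g.t e ∈ W ∧ g.t e ∉ D) ∨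
        (g.t e ∈ D ∧ g.s e ∈ W ∧ g.s e ∉ D)) (filter_subset _ _) (fun e he => by
      rw [mem_filter] at he
      exact h2 e he.1 he.2)
  have h4 := card_le_card hsub
  have h5 := card_union_le ((g.dl W).filter fun e => g.s e ∈ D ∨ g.t e ∈ D)
      (g.E.filter fun e => (g.s e ∈ D ∧ g.t e ∈ W ∧ g.t e ∉ D) ∨
        (g.t e ∈ D ∧ g.s e ∈ W ∧ g.s e ∉ D))
  omega

theorem TC1 (hB1 : TB1_stmt) : TC1_stmt := by
  intro g k PP W A hP hW hT hA hc
  obtain ⟨a1, a2, a3, a4, a5⟩ := hB1 g PP W hP
  have hAW : A.toLeft ⊆ W := by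
    intro v hv
    have := hA (mem_toLeft.1 hv)
    unfold IG.X0 at this
    simpa using this
  have hAr : ∀ e, Sum.inr e ∈ A → e ∈ g.EW W := by
    intro e he
    have := hA he
    unfold IG.X0 at this
    simpa using this
  have hEW : ∀ e, e ∈ g.EW W ↔ e ∈ g.E ∧ (g.s e ∈ W ∨ g.t e ∈ W) := by
    intro e
    unfold IG.EW
    rw [mem_filter]
  have hl : ∀ v, Sum.inl v ∈ A ↔ v ∈ A.toLeft := fun v => mem_toLeft.symm
  -- the two halves
  have hhalf : ((g.dl W).filter fun e => g.s e ∈ A.toLeft ∨ g.t e ∈ A.toLeft).card ≤ k ∨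
      ((g.dl W).filter fun e => g.s e ∈ W \ A.toLeft ∨ g.t e ∈ W \ A.toLeft).card ≤ k := by
    have hdis : Disjoint ((g.dl W).filter fun e => g.s e ∈ A.toLeft ∨ g.t e ∈ A.toLeft)
        ((g.dl W).filter fun e => g.s e ∈ W \ A.toLeft ∨ g.t e ∈ W \ A.toLeft) := by
      rw [Finset.disjoint_left]
      intro e h1 h2
      rw [mem_filter] at h1 h2
      have h3 := h1.1
      unfold IG.dl at h3
      rw [mem_filter] at h3
      have h4 := h2.2
      rw [mem_sdiff, mem_sdiff] at h4
      have b1 := @hAW (g.s e)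
      have b2 := @hAW (g.t e)
      have c1 := h3.2
      have c2 := h1.2
      tauto
    have hu : (((g.dl W).filter fun e => g.s e ∈ A.toLeft ∨ g.t e ∈ A.toLeft) ∪
        ((g.dl W).filter fun e => g.s e ∈ W \ A.toLeft ∨ g.t e ∈ W \ A.toLeft)).card ≤
        (g.dl W).card :=
      card_le_card (union_subset (filter_subset _ _) (filter_subset _ _))
    rw [card_union_of_disjoint hdis] at hu
    omega
  rcases hhalf with hh | hh
  · -- D = A1
    have hd : (g.dl A.toLeft).card ≤ 2 * k := by
      refine TC1_dl g W A k A.toLeft hAW hh (fun e he h => ?_) hc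
      unfold TC1_cut
      rw [hl, hl]
      have b1 := @hAW (g.s e)
      have b2 := @hAW (g.t e)
      tauto
    by_cases hne : A.toLeft = W
    · right
      have := TC1_card g W A (g.beta PP \ A.toRight) (fun e he =>
        ((hEW e).1 (a2 (mem_sdiff.1 he).1)).1) (fun e he => by
          rw [mem_sdiff, mem_toRight] at he
          have h1 := ((hEW e).1 (a2 he.1)).2
          unfold TC1_cut
          rw [hl, hl, hne]
          have h2 := he.2
          tauto)
      omega
    · left
      refine ⟨hne, hd, ?_⟩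
      have ht := hT A.toLeft hAW hne hd
      have hsub : A.toRight ∩ g.beta PP ⊆
          ((g.beta PP).filter fun e => g.s e ∈ A.toLeft ∨ g.t e ∈ A.toLeft) ∪
          ((A.toRight ∩ g.beta PP).filter fun e => ¬ (g.s e ∈ A.toLeft ∨ g.t e ∈ A.toLeft)) := by
        intro e he
        rw [mem_union, mem_filter, mem_filter]
        rw [mem_inter] at he
        by_cases h : g.s e ∈ A.toLeft ∨ g.t e ∈ A.toLeft
        · exact Or.inl ⟨he.2, h⟩
        · exact Or.inr ⟨mem_inter.2 he, h⟩
      have h3 := TC1_card g W A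
        ((A.toRight ∩ g.beta PP).filter fun e => ¬ (g.s e ∈ A.toLeft ∨ g.t e ∈ A.toLeft))
        (fun e he => by
          rw [mem_filter, mem_inter] at he
          exact ((hEW e).1 (a2 he.1.2)).1) (fun e he => by
          rw [mem_filter, mem_inter, mem_toRight] at he
          have h1 := ((hEW e).1 (a2 he.1.2)).2
          unfold TC1_cut
          rw [hl, hl]
          have h2 := he.2
          have h4 := he.1.1
          tauto)
      have h4 := card_le_card hsub
      have h5 := card_union_le
        ((g.beta PP).filter fun e => g.s e ∈ A.toLeft ∨ g.t e ∈ A.toLeft)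
        ((A.toRight ∩ g.beta PP).filter fun e => ¬ (g.s e ∈ A.toLeft ∨ g.t e ∈ A.toLeft))
      unfold IG.tt at ht
      omega
  · -- D = B1
    have hBW : W \ A.toLeft ⊆ W := sdiff_subset
    have hd : (g.dl (W \ A.toLeft)).card ≤ 2 * k := by
      refine TC1_dl g W A k (W \ A.toLeft) hBW hh (fun e he h => ?_) hc
      unfold TC1_cut
      rw [hl, hl]
      simp only [mem_sdiff] at h
      tauto
    by_cases hne : W \ A.toLeft = W
    · have hz : ∀ v ∈ W, v ∉ A.toLeft := by
        intro v hv
        rw [← hne, mem_sdiff] at hv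
        exact hv.2
      by_cases hW0 : A.toLeft = W
      · right
        have hWe : W = ∅ := by
          rw [← hne, hW0]
          simp
        have : g.beta PP = ∅ := by
          rw [eq_empty_iff_forall_notMem]
          intro e he
          have := ((hEW e).1 (a2 he)).2
          rw [hWe] at this
          simp at this
        rw [this]
        simp
      · left
        have hA0 : A.toLeft = ∅ := by
          rw [eq_empty_iff_forall_notMem]
          intro v hv
          exact hz v (hAW hv) hv
        refine ⟨hW0, ?_, ?_⟩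
        · rw [hA0]
          unfold IG.dl
          simp
        · have := TC1_card g W A (A.toRight ∩ g.beta PP) (fun e he =>
            ((hEW e).1 (a2 (mem_inter.1 he).2)).1) (fun e he => by
              rw [mem_inter, mem_toRight] at he
              have h1 := ((hEW e).1 (a2 he.2)).2
              unfold TC1_cut
              rw [hl, hl, hA0]
              have h2 := he.1
              simp only [notMem_empty]
              tauto)
          omega
    · right
      have ht := hT (W \ A.toLeft) hBW hne hd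
      have hsub : g.beta PP \ A.toRight ⊆
          ((g.beta PP).filter fun e => g.s e ∈ W \ A.toLeft ∨ g.t e ∈ W \ A.toLeft) ∪
          ((g.beta PP \ A.toRight).filter fun e =>
            ¬ (g.s e ∈ W \ A.toLeft ∨ g.t e ∈ W \ A.toLeft)) := by
        intro e he
        rw [mem_union, mem_filter, mem_filter]
        by_cases h : g.s e ∈ W \ A.toLeft ∨ g.t e ∈ W \ A.toLeft
        · exact Or.inl ⟨(mem_sdiff.1 he).1, h⟩
        · exact Or.inr ⟨he, h⟩
      have h3 := TC1_card g W A
        ((g.beta PP \ A.toRight).filter fun e =>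
            ¬ (g.s e ∈ W \ A.toLeft ∨ g.t e ∈ W \ A.toLeft))
        (fun e he => by
          rw [mem_filter, mem_sdiff] at he
          exact ((hEW e).1 (a2 he.1.1)).1) (fun e he => by
          rw [mem_filter, mem_sdiff, mem_toRight, mem_sdiff, mem_sdiff] at he
          have h1 := ((hEW e).1 (a2 he.1.1)).2
          unfold TC1_cut
          rw [hl, hl]
          have h2 := he.2
          have h4 := he.1.2
          tauto)
      have h4 := card_le_card hsub
      have h5 := card_union_le
        ((g.beta PP).filter fun e => g.s e ∈ W \ A.toLeft ∨ g.t e ∈ W \ A.toLeft)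
        ((g.beta PP \ A.toRight).filter fun e =>
            ¬ (g.s e ∈ W \ A.toLeft ∨ g.t e ∈ W \ A.toLeft))
      unfold IG.tt at ht
      omega

end Pool.Agent.BS

end
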