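import Pool.Agent.helper50.BS.SpecT

set_option autoImplicit false
set_option linter.unusedVariables false
set_option linter.dupNamespace false

open Finset

open scoped Classical

noncomputable section

namespace Pool.Agent.BS

theorem TC4 : TC4_stmt := by
  intro g W β A hA hβ
  have hX0l : ∀ v, Sum.inl v ∈ g.X0 W ↔ v ∈ W := by
    intro v
    unfold IG.X0
    simp
  have hX0r : ∀ e, Sum.inr e ∈ g.X0 W ↔ e ∈ g.EW W := by
    intro e
    unfold IG.X0
    simp
  have hEW : ∀ e, e ∈ g.EW W ↔ e ∈ g.E ∧ (g.s e ∈ W ∨ g.t e ∈ W) := by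
    intro e
    unfold IG.EW
    rw [mem_filter]
  refine ⟨?_, ?_, ?_, ?_⟩
  · unfold IG.cW
    refine Finset.sum_congr rfl fun e he => ?_
    have h1 : (g.s e ∈ W ∧ ¬ (Sum.inl (g.s e) ∈ g.X0 W \ A ↔ Sum.inr e ∈ g.X0 W \ A)) ↔
        (g.s e ∈ W ∧ ¬ (Sum.inl (g.s e) ∈ A ↔ Sum.inr e ∈ A)) := by
      rw [mem_sdiff, mem_sdiff, hX0l, hX0r, hEW]
      tauto
    have h2 : (g.t e ∈ W ∧ ¬ (Sum.inl (g.t e) ∈ g.X0 W \ A ↔ Sum.inr e ∈ g.X0 W \ A)) ↔
        (g.t e ∈ W ∧ ¬ (Sum.inl (g.t e) ∈ A ↔ Sum.inr e ∈ A)) := by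
      rw [mem_sdiff, mem_sdiff, hX0l, hX0r, hEW]
      tauto
    simp only [h1, h2]
  · unfold nW
    have h1 : (g.X0 W \ A).toLeft ∩ W = W \ (A.toLeft ∩ W) := by
      ext v
      rw [mem_inter, mem_toLeft, mem_sdiff, hX0l, mem_sdiff, mem_inter, mem_toLeft]
      tauto
    rw [h1]
    exact card_sdiff_add_card_eq_card inter_subset_right
  · unfold bB
    have h1 : (g.X0 W \ A).toRight ∩ β = β \ (A.toRight ∩ β) := by
      ext e
      rw [mem_inter, mem_toRight, mem_sdiff, hX0r, mem_sdiff, mem_inter, mem_toRight]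
      have := @hβ e
      tauto
    rw [h1]
    exact card_sdiff_add_card_eq_card inter_subset_right
  · have hdl : ∀ e ∈ g.dl W, e ∈ g.EW W := by
      intro e he
      unfold IG.dl at he
      rw [mem_filter] at he
      rw [hEW]
      refine ⟨he.1, ?_⟩
      by_contra hc
      push Not at hc
      exact he.2 ⟨fun h => absurd h hc.1, fun h => absurd h hc.2⟩
    ext e
    rw [mem_inter, mem_toRight, mem_sdiff, hX0r, mem_sdiff, mem_inter, mem_toRight]
    have := hdl e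
    tauto

end Pool.Agent.BS

end
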