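import Pool.Agent.helper50.BS.SpecU

set_option autoImplicit false
set_option linter.unusedVariables false
set_option linter.dupNamespace false

open scoped Classical

noncomputable section

namespace Pool.Agent.helper50.BT

open Pool.Agent.helper81.PL

theorem UB6_fits {N M n k l : ℕ} {T : BS.TR M n k l} {L : List ℕ} {r : T.R}
    (h1 : (n + 1) * (k + 1) * (l + 1) ≤ N) (h2 : M ≤ N) (h : Rp T L r) : Clip.clip N L = L := by
  refine Clip.clip_eq ?_
  rw [fits_list]
  refine ⟨by rw [h.1]; exact h1, fun x hx => ?_⟩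
  rw [fits_nat]
  have := h.2.1 x hx
  omega

theorem UB6_fold {N M n k l : ℕ} {T : BS.TR M n k l} {ι : Type}
    (s : List ℕ → List ℕ → List ℕ) (o : T.R → T.R → T.R)
    (hs : ∀ A B r r', Rp T A r → Rp T B r' → Rp T (s A B) (o r r'))
    (h1 : (n + 1) * (k + 1) * (l + 1) ≤ N) (h2 : M ≤ N) (f : ι → List ℕ) (r : ι → T.R) :
    ∀ (L : List ι) (y : List ℕ) (ρ : T.R), (∀ i ∈ L, Rp T (f i) (r i)) → Rp T y ρ →
      Rp T ((L.map f).foldl (fun y b => Clip.clip N (s y b)) y) ((L.map r).foldl o ρ) := by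
  intro L
  induction L with
  | nil =>
    intro y ρ _ hy
    exact hy
  | cons i L ih =>
    intro y ρ hL hy
    rw [List.map_cons, List.map_cons, List.foldl_cons, List.foldl_cons]
    have h3 := hs _ _ _ _ hy (hL i List.mem_cons_self)
    refine ih _ _ (fun j hj => hL j (List.mem_cons_of_mem _ hj)) ?_
    rw [UB6_fits h1 h2 h3]
    exact h3

theorem UB6 (hUB3 : UB3_stmt) (hUB4 : UB4_stmt) (hUB5 : UB5_stmt) : UB6_stmt := by
  intro N M n k l T ι L f r hM h1 h2 hL
  obtain ⟨-, ho, hz⟩ := hUB3 M n k l T hM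
  constructor
  · unfold prodT cfold
    rw [UB6_fits h1 h2 ho, List.prod_eq_foldl]
    exact UB6_fold _ (fun a b => a * b) (fun A B r r' ha hb => hUB5 M n k l T A B r r' hM ha hb)
      h1 h2 f r L _ _ hL ho
  · unfold sumT cfold
    rw [UB6_fits h1 h2 hz, List.sum_eq_foldl]
    exact UB6_fold _ (fun a b => a + b)
      (fun A B r r' ha hb => (hUB4 M n k l T A B r r' hM ha hb).1)
      h1 h2 f r L _ _ hL hz

end Pool.Agent.helper50.BT

end
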